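import Pool.Agent.H165Z.Fold

set_option autoImplicit false

open UpperHalfPlane

namespace Pool.Agent.Results.MP_44e237_gt.AFold

/-- Let `X = ℍ × Y` carry the Euclidean product metric, `ℍ` being the hyperbolic plane and `Y` any
nonempty metric space.  There is a quasi-isometric embedding of `X` into `X × ℝ` whose image is at
infinite Hausdorff distance from the graph of every function `X → ℝ`. -/
theorem result (Y : Type*) [MetricSpace Y] [Nonempty Y] :
    ∃ f : WithLp 2 (ℍ × Y) → WithLp 2 (WithLp 2 (ℍ × Y) × ℝ),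
      (∃ L C : ℝ, 1 ≤ L ∧ 0 ≤ C ∧ ∀ a a' : WithLp 2 (ℍ × Y),
        L⁻¹ * dist a a' - C ≤ dist (f a) (f a') ∧ dist (f a) (f a') ≤ L * dist a a' + C) ∧
      ∀ h : WithLp 2 (ℍ × Y) → ℝ,
        Metric.hausdorffEDist (Set.range f)
          (Set.range fun x : WithLp 2 (ℍ × Y) => WithLp.toLp 2 (x, h x)) = ⊤ :=
  Pool.Agent.H165Z.Fold.main Y

end Pool.Agent.Results.MP_44e237_gt.AFold
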